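import Pool.Agent.H47.WTH.Stmts
import Pool.Agent.H49.RIC.WAA

/-!
# WTH, row WTH: the theorem from one window
-/

set_option autoImplicit false

namespace Pool.WTH

open Finset Pool.Agent.H98.ABCR Pool.SHA Pool.VIO

/-- One dyadic class of the radical: sum over the windows of the height. -/
theorem wth_cls (γ K κ C1 : ℝ) (hK : 1 ≤ K) (hκ : 1 ≤ κ)
    (hW : ∀ (X h0 : ℝ) (F : Finset (ℕ × ℕ)), 1 ≤ X → K * Real.log X ≤ h0 →
      h0 ≤ (K * κ) * Real.log X →
      (∀ v ∈ F, IsTri v ∧ (RR v : ℝ) ≤ X ∧ X / 2 < (RR v : ℝ) ∧ h0 ≤ hh v ∧ hh v ≤ 2 * h0) →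
      (F.card : ℝ) ≤ C1 * X ^ γ)
    (Z : ℝ) (hZ : 3 ≤ Z) (F : Finset (ℕ × ℕ))
    (hF : ∀ v ∈ F, IsTri v ∧ (RR v : ℝ) ≤ Z ∧ Z / 2 < (RR v : ℝ) ∧ K * Real.log Z ≤ hh v ∧
      hh v ≤ κ * Real.log Z) :
    (F.card : ℝ) ≤ ((Nat.log 2 ⌊κ⌋₊ + 1 : ℕ) : ℝ) * (C1 * Z ^ γ) := by
  classical
  have hZ1 : 1 ≤ Z := by linarith
  have hL : 0 < Real.log Z := Real.log_pos (by linarith)
  have hK0 : 0 < K := by linarith
  have hKL : 0 < K * Real.log Z := by positivity
  have hfl : 1 ≤ ⌊κ⌋₊ := Nat.le_floor (by exact_mod_cast hκ)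
  set f : ℕ × ℕ → ℕ := fun v => Nat.log 2 ⌊hh v / (K * Real.log Z)⌋₊ with hf
  have hρ1 : ∀ v ∈ F, 1 ≤ hh v / (K * Real.log Z) := by
    intro v hv
    obtain ⟨-, -, -, t4, -⟩ := hF v hv
    rw [one_le_div hKL]
    exact t4
  have hρ2 : ∀ v ∈ F, hh v / (K * Real.log Z) ≤ κ := by
    intro v hv
    obtain ⟨-, -, -, -, t5⟩ := hF v hv
    rw [div_le_iff₀ hKL]
    refine t5.trans ?_
    have : 0 ≤ κ * Real.log Z := by positivity
    nlinarith
  have hcard : F.card = ∑ l ∈ Finset.range (Nat.log 2 ⌊κ⌋₊ + 1),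
      (F.filter (fun v => f v = l)).card := by
    apply Finset.card_eq_sum_card_fiberwise
    intro v hv
    rw [Finset.mem_coe, Finset.mem_range, Nat.lt_succ_iff]
    exact Nat.log_mono_right (Nat.floor_le_floor (hρ2 v hv))
  rw [hcard, Nat.cast_sum]
  calc ∑ l ∈ Finset.range (Nat.log 2 ⌊κ⌋₊ + 1), ((F.filter (fun v => f v = l)).card : ℝ)
      ≤ ∑ _l ∈ Finset.range (Nat.log 2 ⌊κ⌋₊ + 1), C1 * Z ^ γ := by
        refine Finset.sum_le_sum fun l hl => ?_
        rw [Finset.mem_range, Nat.lt_succ_iff] at hl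
        have hl1 : (2 : ℝ) ^ l ≤ κ := by
          have h1 : 2 ^ l ≤ ⌊κ⌋₊ :=
            le_trans (Nat.pow_le_pow_right (by norm_num) hl) (Nat.pow_log_le_self 2 (by omega))
          exact le_trans (by exact_mod_cast h1) (Nat.floor_le (by linarith))
        have hl2 : (1 : ℝ) ≤ (2 : ℝ) ^ l := one_le_pow₀ (by norm_num)
        refine hW Z (K * Real.log Z * 2 ^ l) _ hZ1 ?_ ?_ ?_
        · nlinarith
        · calc K * Real.log Z * 2 ^ l ≤ K * Real.log Z * κ :=
                mul_le_mul_of_nonneg_left hl1 hKL.le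
            _ = K * κ * Real.log Z := by ring
        · intro v hv
          rw [Finset.mem_filter] at hv
          obtain ⟨hvF, hvl⟩ := hv
          obtain ⟨t1, t2, t3, t4, t5⟩ := hF v hvF
          have r1 := hρ1 v hvF
          have hfv : 1 ≤ ⌊hh v / (K * Real.log Z)⌋₊ := Nat.le_floor (by exact_mod_cast r1)
          have hvl' : Nat.log 2 ⌊hh v / (K * Real.log Z)⌋₊ = l := hvl
          have a1 : 2 ^ l ≤ ⌊hh v / (K * Real.log Z)⌋₊ := by
            rw [← hvl']
            exact Nat.pow_log_le_self 2 (by omega)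
          have a2 : ⌊hh v / (K * Real.log Z)⌋₊ + 1 ≤ 2 ^ (l + 1) := by
            rw [← hvl']
            exact Nat.lt_pow_succ_log_self (by norm_num) _
          have b1 : (2 : ℝ) ^ l ≤ hh v / (K * Real.log Z) :=
            le_trans (by exact_mod_cast a1) (Nat.floor_le (by linarith))
          have b2 : hh v / (K * Real.log Z) ≤ (2 : ℝ) ^ (l + 1) := by
            refine (Nat.lt_floor_add_one _).le.trans ?_
            exact_mod_cast a2
          rw [le_div_iff₀ hKL] at b1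
          rw [div_le_iff₀ hKL, pow_succ] at b2
          exact ⟨t1, t2, t3, by linarith, by linarith⟩
    _ = ((Nat.log 2 ⌊κ⌋₊ + 1 : ℕ) : ℝ) * (C1 * Z ^ γ) := by
        rw [Finset.sum_const, nsmul_eq_mul, Finset.card_range]

open Pool.RIC.WAA in
/-- **WTH**. -/
theorem wth_thm (h1 : S_WIN) : S_WTH := by
  classical
  intro ε hε
  have h0 : 0 < min ε 1 := lt_min hε one_pos
  have h01 : min ε 1 ≤ 1 := min_le_right _ _
  obtain ⟨ε0, hε0⟩ : ∃ e, e = min ε 1 := ⟨_, rfl⟩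
  rw [← hε0] at h0 h01
  have h02 : ε0 ≤ ε := by rw [hε0]; exact min_le_left _ _
  obtain ⟨K, hK, hW⟩ := h1 (ε0 / 2) (by linarith)
  refine ⟨2 * K, by linarith, fun κ hκ => ?_⟩
  obtain ⟨C1, hC1, hW1⟩ := hW (K * κ) (by nlinarith)
  have hM0 : 0 ≤ ((⌊Real.exp (κ * Real.log 2)⌋₊ : ℝ) + 1) ^ 2 := by positivity
  obtain ⟨B, hB⟩ : ∃ B : ℝ, B = ((⌊Real.exp (κ * Real.log 2)⌋₊ : ℝ) + 1) ^ 2 := ⟨_, rfl⟩
  rw [← hB] at hM0
  obtain ⟨W, hWd⟩ : ∃ W : ℝ, W = ((Nat.log 2 ⌊κ⌋₊ + 1 : ℕ) : ℝ) := ⟨_, rfl⟩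
  have hW0 : 1 ≤ W := by
    rw [hWd]
    push_cast
    have : (0 : ℝ) ≤ (Nat.log 2 ⌊κ⌋₊ : ℝ) := Nat.cast_nonneg _
    linarith
  obtain ⟨M, hM⟩ : ∃ M : ℝ, M = 2 * (W * C1) + B := ⟨_, rfl⟩
  have hWC : 1 ≤ W * C1 := by nlinarith
  have hM1 : 1 ≤ M := by linarith
  have hδ : 0 < ε0 / 2 := by linarith
  have hCC : 1 ≤ (2 / (ε0 / 2) + 1) * M := by
    have : 1 ≤ 2 / (ε0 / 2) + 1 := by
      have : 0 ≤ 2 / (ε0 / 2) := by positivity
      linarith
    nlinarith
  refine ⟨(2 / (ε0 / 2) + 1) * M, hCC, ?_⟩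
  intro X F hX hF
  have hX0 : 0 < X := by linarith
  have key := dya (1 / 3 + ε0 / 2) (ε0 / 2) M X hδ (by linarith) hX F (fun v hv => (hF v hv).2.1)
    (by
    intro j hj
    have hXγ : 1 ≤ X ^ (1 / 3 + ε0 / 2) := Real.one_le_rpow hX (by linarith)
    by_cases hj2 : j < 1
    · have h4 := small_card (Real.exp (κ * Real.log 2))
        (F.filter (fun v => Nat.log 2 (RR v) = j)) (by
        intro v hv
        rw [Finset.mem_filter] at hv
        obtain ⟨hvF, hvj⟩ := hv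
        obtain ⟨t1, t2, t3, t4⟩ := hF v hvF
        have hR0 : 0 < RR v := rad_pos _
        have h5 : RR v < 2 ^ (j + 1) := by
          rw [← hvj]; exact Nat.lt_pow_succ_log_self (by norm_num) _
        have h6 : (2 : ℕ) ^ (j + 1) ≤ 2 ^ 1 := Nat.pow_le_pow_right (by norm_num) (by omega)
        have h7 : (RR v : ℝ) ≤ 2 := by
          have : RR v ≤ 2 := by omega
          exact_mod_cast this
        have h8 : Real.log (RR v) ≤ Real.log 2 :=
          Real.log_le_log (by exact_mod_cast hR0) h7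
        have hpos : (0 : ℝ) < ((v.1 + v.2 : ℕ) : ℝ) := by
          obtain ⟨u1, u2, -⟩ := t1
          exact_mod_cast (by omega : 0 < v.1 + v.2)
        rw [← Real.log_le_iff_le_exp hpos]
        calc Real.log ((v.1 + v.2 : ℕ) : ℝ) = hh v := rfl
          _ ≤ κ * Real.log (RR v) := t4
          _ ≤ κ * Real.log 2 := mul_le_mul_of_nonneg_left h8 (by linarith))
      rw [← hB] at h4
      calc ((F.filter (fun v => Nat.log 2 (RR v) = j)).card : ℝ) ≤ B := h4
        _ ≤ M := by linarith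
        _ = M * 1 := (mul_one M).symm
        _ ≤ M * X ^ (1 / 3 + ε0 / 2) := mul_le_mul_of_nonneg_left hXγ (by linarith)
    · have hj2' : 1 ≤ j := not_lt.1 hj2
      have hl2 : 0 < Real.log 2 := Real.log_pos (by norm_num)
      have hZ4 : (4 : ℝ) ≤ (2 : ℝ) ^ (j + 1) := by
        calc (4 : ℝ) = 2 ^ 2 := by norm_num
          _ ≤ 2 ^ (j + 1) := pow_le_pow_right₀ (by norm_num) (by omega)
      have hj2r : (1 : ℝ) ≤ j := by exact_mod_cast hj2'
      have hZ0 : (0 : ℝ) < (2 : ℝ) ^ (j + 1) - 1 := by linarith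
      have hlZ : Real.log ((2 : ℝ) ^ (j + 1) - 1) ≤ ((j : ℝ) + 1) * Real.log 2 := by
        have : Real.log ((2 : ℝ) ^ (j + 1)) = ((j : ℝ) + 1) * Real.log 2 := by
          rw [Real.log_pow]
          push_cast
          ring
        rw [← this]
        exact Real.log_le_log hZ0 (by linarith)
      have h4 := wth_cls (1 / 3 + ε0 / 2) K κ C1 hK hκ hW1 ((2 : ℝ) ^ (j + 1) - 1)
        (by linarith) (F.filter (fun v => Nat.log 2 (RR v) = j)) (by
        intro v hv
        rw [Finset.mem_filter] at hv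
        obtain ⟨hvF, hvj⟩ := hv
        obtain ⟨t1, t2, t3, t4⟩ := hF v hvF
        have hR0 : 0 < RR v := rad_pos _
        have hR0' : (0 : ℝ) < RR v := by exact_mod_cast hR0
        have h5 : RR v + 1 ≤ 2 ^ (j + 1) := by
          rw [← hvj]; exact Nat.lt_pow_succ_log_self (by norm_num) _
        have h6 : 2 ^ j ≤ RR v := by
          rw [← hvj]; exact Nat.pow_log_le_self 2 (by omega)
        have h5' : (RR v : ℝ) + 1 ≤ (2 : ℝ) ^ (j + 1) := by exact_mod_cast h5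
        have h6' : (2 : ℝ) ^ j ≤ (RR v : ℝ) := by exact_mod_cast h6
        have h7 : (j : ℝ) * Real.log 2 ≤ Real.log (RR v) := by
          rw [← Real.log_pow]
          exact Real.log_le_log (by positivity) h6'
        have h8 : Real.log (RR v) ≤ Real.log ((2 : ℝ) ^ (j + 1) - 1) :=
          Real.log_le_log hR0' (by linarith)
        refine ⟨t1, by linarith, ?_, ?_, ?_⟩
        · rw [pow_succ]
          linarith
        · calc K * Real.log ((2 : ℝ) ^ (j + 1) - 1) ≤ K * (((j : ℝ) + 1) * Real.log 2) :=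
                mul_le_mul_of_nonneg_left hlZ (by linarith)
            _ ≤ K * (2 * ((j : ℝ) * Real.log 2)) := by
                refine mul_le_mul_of_nonneg_left ?_ (by linarith)
                nlinarith
            _ ≤ K * (2 * Real.log (RR v)) := mul_le_mul_of_nonneg_left (by linarith) (by linarith)
            _ = 2 * K * Real.log (RR v) := by ring
            _ ≤ hh v := t3
        · calc hh v ≤ κ * Real.log (RR v) := t4
            _ ≤ κ * Real.log ((2 : ℝ) ^ (j + 1) - 1) :=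
              mul_le_mul_of_nonneg_left h8 (by linarith))
      rw [← hWd] at h4
      refine h4.trans ?_
      have h5 : (2 : ℝ) ^ (j + 1) - 1 ≤ 2 * X := by
        have h6 : 2 ^ j ≤ ⌊X⌋₊ := by
          refine le_trans (Nat.pow_le_pow_right (by norm_num) hj) (Nat.pow_log_le_self 2 ?_)
          have : 1 ≤ ⌊X⌋₊ := Nat.le_floor (by exact_mod_cast hX)
          omega
        have h7 : ((2 : ℝ)) ^ j ≤ X := le_trans (by exact_mod_cast h6) (Nat.floor_le hX0.le)
        rw [pow_succ]; linarith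
      have h6 : ((2 : ℝ) ^ (j + 1) - 1) ^ (1 / 3 + ε0 / 2) ≤ 2 * X ^ (1 / 3 + ε0 / 2) := by
        calc ((2 : ℝ) ^ (j + 1) - 1) ^ (1 / 3 + ε0 / 2) ≤ (2 * X) ^ (1 / 3 + ε0 / 2) :=
              Real.rpow_le_rpow hZ0.le h5 (by linarith)
          _ = (2 : ℝ) ^ (1 / 3 + ε0 / 2) * X ^ (1 / 3 + ε0 / 2) :=
              Real.mul_rpow (by norm_num) hX0.le
          _ ≤ 2 * X ^ (1 / 3 + ε0 / 2) := by
              refine mul_le_mul_of_nonneg_right ?_ (by positivity)
              calc (2 : ℝ) ^ (1 / 3 + ε0 / 2) ≤ (2 : ℝ) ^ (1 : ℝ) :=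
                    Real.rpow_le_rpow_of_exponent_le (by norm_num) (by linarith)
                _ = 2 := Real.rpow_one _
      calc W * (C1 * ((2 : ℝ) ^ (j + 1) - 1) ^ (1 / 3 + ε0 / 2))
          = (W * C1) * ((2 : ℝ) ^ (j + 1) - 1) ^ (1 / 3 + ε0 / 2) := by ring
        _ ≤ (W * C1) * (2 * X ^ (1 / 3 + ε0 / 2)) :=
            mul_le_mul_of_nonneg_left h6 (by linarith)
        _ = 2 * (W * C1) * X ^ (1 / 3 + ε0 / 2) := by ring
        _ ≤ M * X ^ (1 / 3 + ε0 / 2) := mul_le_mul_of_nonneg_right (by linarith) (by linarith))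
  refine key.trans ?_
  refine mul_le_mul_of_nonneg_left ?_ (by linarith)
  exact Real.rpow_le_rpow_of_exponent_le hX (by linarith)

end Pool.WTH
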